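import Pool.Agent.Lib_helper86.K4H.T2

set_option autoImplicit false
set_option linter.unusedSectionVars false

/-!
HeckeK4: the honest relations for the prime two, on the sealed definitions.
-/

namespace Pool.Agent.MK4

open scoped TensorProduct
open Finset

section Abs

variable {A B : Type*} [AddCommGroup A] [AddCommGroup B]

/-- The relation `∑_{i ∈ A[2]} t(a,b+i) = t(a,2b) + t(a,a+2b) + ∑_{i ∈ A[2]} t(a+2b,-b+i)`. -/
def Second2 (t : A → A → B) : Prop :=
  ∀ a b : A, ∑ᶠ i : {i : A // 2 • i = 0}, t a (b + i) =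
    t a (2 • b) + t a (a + 2 • b) + ∑ᶠ i : {i : A // 2 • i = 0}, t (a + 2 • b) (-b + i)

end Abs

section H

variable {F : Type*} [Field F] [CharZero F] [IsAlgClosed F] [DecidableEq F]
  {W : WeierstrassCurve.Affine F}

lemma lib_dist2pow (hW : W.Δ ≠ 0) {t : To W → To W → K4M.B2 F} (ht : K4ParP.IsT t)
    (hC : ∀ P a b c d : To W, K4D2.fT (K4D2.h2_closed hW) P a b c d = K4ParP.CR t P a b c d)
    (m : ℕ) : ∀ a b : To W, (2 ^ m) • ∑ i ∈ K4D2.TF (K4M.TP W) (2 ^ m),
      K4ParP.xi (K4M.hkL F) t K4M.gT a (b + i) =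
      K4ParP.xi (K4M.hkL F) t K4M.gT a ((2 ^ m) • b) := by
  have hd : ∀ a b : To W, 2 • ∑ i ∈ K4D2.TF (K4M.TP W) 2,
      K4ParP.xi (K4M.hkL F) t K4M.gT a (b + i) =
      K4ParP.xi (K4M.hkL F) t K4M.gT a (2 • b) := by
    intro a b
    rw [K4Hon.d2two_H hW ht hC a b, ← Nat.cast_smul_eq_nsmul ℚ, smul_smul]
    norm_num
  have hdiv : ∀ x : To W, ∃ y, 2 • y = x := fun x => (K4D2.td_closed hW).div 1 x
  induction m with
  | zero =>
    intro a b
    have h1 : K4D2.TF (K4M.TP W) (2 ^ 0) = {0} := by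
      ext x
      rw [K4D2.mem_TF (T := K4M.TP W) (by norm_num), pow_zero, one_smul, Finset.mem_singleton]
    rw [h1, Finset.sum_singleton, pow_zero, one_smul, one_smul, add_zero]
  | succ m ih =>
    have hpos : ∀ k : ℕ, 0 < 2 ^ k := fun k => Nat.pow_pos two_pos
    intro a b
    have h := dist2_mul (K := K4D2.TF (K4M.TP W) 2) (N := K4D2.TF (K4M.TP W) (2 ^ m))
      (M := K4D2.TF (K4M.TP W) (2 ^ (m + 1))) (n := 2 ^ m)
      (fun x => K4D2.mem_TF (T := K4M.TP W) two_pos x)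
      (fun x => K4D2.mem_TF (T := K4M.TP W) (hpos m) x)
      (fun x => by rw [← pow_succ]; exact K4D2.mem_TF (T := K4M.TP W) (hpos (m + 1)) x)
      hdiv hd ih a b
    rw [← pow_succ] at h
    exact h

/-- the distribution relation in one variable for the `2^m`-torsion, in `H(F)` -/
theorem dist2pow_T (hW : W.Δ ≠ 0) {t : To W → To W → B2 F} (ht : Tri cr t) (m : ℕ) :
    Dist2At (2 ^ m) (fun a b : To W => hk (t a b) (K4M.gT b - K4M.gT a)) := by
  have h1 := (tri_iff_T hW).mp ht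
  have key : Dist2At (2 ^ m) (fun a b : To W =>
      K4ParP.xi (B := K4M.B2 F) (K4M.hkL F) t K4M.gT a b) := by
    intro a b
    rw [K4D2.finsum_tor (A := K4M.TP W) (Nat.pow_pos two_pos)
      (fun i => K4ParP.xi (B := K4M.B2 F) (K4M.hkL F) t K4M.gT a (b + i))]
    exact lib_dist2pow hW h1.1 h1.2 m a b
  exact key

/-- the Hecke relation `T₂`, in `H(F)` -/
theorem hecke2_T (hW : W.Δ ≠ 0) {t : To W → To W → B2 F} (ht : Tri cr t) :
    HeckeAt 2 (fun a b : To W => hk (t a b) (K4M.gT b - K4M.gT a)) := by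
  classical
  have h1 := (tri_iff_T hW).mp ht
  refine hecke_two (K := K4D2.TF (K4M.TP W) 2) (manin_T hW ht) ?_ ?_ ?_
  · intro x
    rw [K4D2.mem_TF (T := K4M.TP W) two_pos, two_nsmul]
  · exact K4D2.card_TF (K4D2.td_closed hW) 1
  · have h := lib_dist2pow hW h1.1 h1.2 1
    rw [pow_one] at h
    exact h

lemma lib_second2 (hW : W.Δ ≠ 0) {t : To W → To W → K4M.B2 F} (ht : K4ParP.IsT t)
    (hC : ∀ P a b c d : To W, K4D2.fT (K4D2.h2_closed hW) P a b c d = K4ParP.CR t P a b c d) :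
    Second2 t := by
  intro a b
  rw [K4D2.finsum_tor (A := K4M.TP W) two_pos (fun i => t a (b + i)),
    K4D2.finsum_tor (A := K4M.TP W) two_pos (fun i => t (a + 2 • b) (-b + i)), two_nsmul]
  exact K4Hon.z2_H hW ht hC a b

/-- the second order relation of `t` for the 2-torsion, in `B₂(F)` -/
theorem second2_T (hW : W.Δ ≠ 0) {t : To W → To W → B2 F} (ht : Tri cr t) : Second2 t :=
  lib_second2 hW ((tri_iff_T hW).mp ht).1 ((tri_iff_T hW).mp ht).2

end H

end Pool.Agent.MK4
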