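import Pool.Agent.Lib_helper2.K4.DefsH
import Pool.Agent.Lib_helper2.K4.Bridge
import Pool.Agent.Lib_helper24.K4D2.Closed
import Pool.Agent.Lib_helper86.K4.TRel
import Pool.Agent.Lib_helper24.K4H.L234

set_option autoImplicit false
set_option linter.unusedSectionVars false

/-!
HeckeK4: the Manin relations, the differential of `t` and the closedness of the classes, on the
sealed definitions.
-/

namespace Pool.Agent.MK4

open scoped TensorProduct

section gen

variable {A B G H : Type*} [AddCommGroup A] [AddCommGroup B] [Module ℚ B]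
  [AddCommGroup G] [Module ℚ G] [AddCommGroup H] [Module ℚ H]
  (m : B →ₗ[ℚ] G →ₗ[ℚ] H) {t : A → A → B} (g : A → G)

lemma gen_sym (ht : K4ParP.IsT t) (a b : A) : m (t b a) (g a - g b) = m (t a b) (g b - g a) := by
  rw [ht.swap a b, ← neg_sub (g b) (g a)]
  simp only [map_neg, LinearMap.neg_apply, neg_neg]

lemma gen_tri (ht : K4ParP.IsT t) (a b : A) :
    m (t a b) (g b - g a) + m (t b (-a - b)) (g (-a - b) - g b)
      + m (t (-a - b) a) (g a - g (-a - b)) = 0 := by
  have h1 : t b (-a - b) = t a b := ht.rot a b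
  have h2 : t (-a - b) a = t a b := by
    have := ht.rot (-a - b) a
    rw [show -(-a - b) - a = b by abel] at this
    exact this.symm
  rw [h1, h2, ← map_add, ← map_add]
  rw [show g b - g a + (g (-a - b) - g b) + (g a - g (-a - b)) = 0 by abel, map_zero]

/-- closedness from the differential of `t` -/
lemma gen_closed {W₂ W₃ : Type*} [AddCommGroup W₂] [Module ℚ W₂] [AddCommGroup W₃] [Module ℚ W₃]
    {w : G →ₗ[ℚ] G →ₗ[ℚ] W₂} {w₃ : W₂ →ₗ[ℚ] G →ₗ[ℚ] W₃}
    (hw : ∀ x, w x x = 0) (h3 : ∀ x y, w₃ (w x y) y = 0) (a b : A) :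
    w₃ (w (g a) (g b) + w (g b) (g (a + b)) + w (g (a + b)) (g a)) (g b - g a) = 0 := by
  have h3' : ∀ x y, w₃ (w x y) x = 0 := fun x y => by
    rw [K4ParP.w_swap hw y x, map_neg, LinearMap.neg_apply, h3, neg_zero]
  have h23 : ∀ x y z, w₃ (w x y) z = - w₃ (w x z) y := by
    intro x y z
    have h := h3 x (y + z)
    simp only [map_add, LinearMap.add_apply, h3, zero_add, add_zero] at h
    exact eq_neg_of_add_eq_zero_right h
  simp only [map_add, map_sub, LinearMap.add_apply, h3, h3']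
  rw [h23 (g b) (g (a + b)) (g a), K4ParP.w_swap hw (g a) (g b), h23 (g (a + b)) (g a) (g b),
    K4ParP.w_swap hw (g b) (g (a + b))]
  simp only [map_neg, LinearMap.neg_apply, neg_neg]
  rw [h23 (g b) (g (a + b)) (g a), K4ParP.w_swap hw (g a) (g b)]
  simp

end gen

section H

variable {F : Type*} [Field F] [CharZero F] [IsAlgClosed F] [DecidableEq F]
  {W : WeierstrassCurve.Affine F}

/-- the hypotheses of the library -/
abbrev HypT (hW : W.Δ ≠ 0) (t : To W → To W → B2 F) : Prop :=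
  K4ParP.IsT (B := K4M.B2 F) t ∧
      ∀ P a b c d : To W, K4D2.fT (K4D2.h2_closed hW) P a b c d =
        K4ParP.CR (B := K4M.B2 F) t P a b c d

lemma relH (hW : W.Δ ≠ 0) {t : To W → To W → B2 F} (h : HypT hW t) (P : To W) :
    K4ParP.Rel (B := K4M.B2 F) (K4M.hkL F) t (K4M.gT : To W → K4M.FT F) P :=
  K4ParP.rel_of_CR (K4D2.h2_closed hW) h.2 P

lemma isG_gT : K4ParP.IsG (K4M.gT : To W → K4M.FT F) := K4M.gT_neg

/-- (L5) -/
theorem manin_H (hW : W.Δ ≠ 0) {t : To W → To W → B2 F} (h : HypT hW t) :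
    Manin (fun a b : To W => hk (t a b) (K4M.gT b - K4M.gT a)) where
  sym a b := gen_sym (B := K4M.B2 F) (K4M.hkL F) K4M.gT h.1 a b
  par a b := K4M.par_T (m := K4M.hkL F) (B := K4M.B2 F) K4M.TP_LF h.1 isG_gT (relH hW h) a b
  tri a b c hs := by
    have hc : c = -a - b := by
      have := eq_neg_of_add_eq_zero_right hs
      rw [this]; abel
    subst hc
    exact gen_tri (B := K4M.B2 F) (K4M.hkL F) K4M.gT h.1 a b

/-- (L8) -/
theorem hasD_H (hW : W.Δ ≠ 0) {t : To W → To W → B2 F} (h : HypT hW t) (a b : To W) :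
    HasD (t a b) (dt (K4M.gT : To W → FT F) a b) :=
  (hasD_iff _ _).mpr (K4D2.de_closed hW h.1 h.2 a b)

lemma lib_closed (hW : W.Δ ≠ 0) {t : To W → To W → K4M.B2 F} (ht : K4ParP.IsT t)
    (hC : ∀ P a b c d : To W, K4D2.fT (K4D2.h2_closed hW) P a b c d = K4ParP.CR t P a b c d)
    (a b : To W) : K4M.dH F (K4M.hk (t a b) (K4M.gT b - K4M.gT a)) = 0 := by
  rw [K4M.dH_hk, K4D2.de_closed hW ht hC a b]
  exact gen_closed (w₃ := K4M.wg3 F) K4M.gT K4M.wg_self K4M.wg3_wg a b

/-- (L9) -/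
theorem closed_H (hW : W.Δ ≠ 0) {t : To W → To W → B2 F} (h : HypT hW t) (a b : To W) :
    Closed (hk (t a b) (K4M.gT b - K4M.gT a)) :=
  (closed_iff _).mpr (lib_closed hW h.1 h.2 a b)

/-- (L5) -/
theorem manin_T (hW : W.Δ ≠ 0) {t : To W → To W → B2 F} (ht : Tri cr t) :
    Manin (fun a b : To W => hk (t a b) (K4M.gT b - K4M.gT a)) :=
  manin_H hW ((tri_iff_T hW).mp ht)

/-- (L8) -/
theorem hasD_T (hW : W.Δ ≠ 0) {t : To W → To W → B2 F} (ht : Tri cr t) (a b : To W) :
    HasD (t a b) (dt (K4M.gT : To W → FT F) a b) := hasD_H hW ((tri_iff_T hW).mp ht) a b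

/-- (L9) -/
theorem closed_T (hW : W.Δ ≠ 0) {t : To W → To W → B2 F} (ht : Tri cr t) (a b : To W) :
    Closed (hk (t a b) (K4M.gT b - K4M.gT a)) := closed_H hW ((tri_iff_T hW).mp ht) a b

end H

end Pool.Agent.MK4
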