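import Pool.Agent.Lib_helper86.K4H.L6
import Pool.Agent.Lib_helper86.K4.Z2b
import Pool.Agent.Lib_helper60.K4M.A2c
import Pool.Agent.Lib_helper24.K4DH.Induct

set_option autoImplicit false
set_option linter.unusedSectionVars false
set_option linter.unnecessarySeqFocus false

/-!
HeckeK4: the honest distribution relation for the 2-torsion in one variable and the honest Hecke
relation for `T₂`.
-/

namespace Pool.Agent.K4Hon

open Finset Pool.Agent.K4ParP Pool.Agent.K4D2

section abs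

variable {A B G H : Type*} [AddCommGroup A] [AddCommGroup B] [Module ℚ B]
  [AddCommGroup G] [Module ℚ G] [AddCommGroup H] [Module ℚ H]
  [∀ n : ℕ, Fintype (tor A (n + 1))]

lemma sum_TF {V : Type*} [AddCommMonoid V] (n : ℕ) (f : A → V) :
    ∑ i ∈ TF A (n + 1), f i = ∑ i : tor A (n + 1), f i := by
  show ∑ i ∈ (univ : Finset (tor A (n + 1))).map (Function.Embedding.subtype _), f i = _
  rw [Finset.sum_map]
  rfl

lemma zr_two {t : A → A → B} (ht : K4ParP.IsT t)
    (hz : ∀ u v, ∑ i ∈ TF A 2, t u (v + i) =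
      t u (v + v) + t u (u + (v + v)) + ∑ i ∈ TF A 2, t (u + (v + v)) (-v + i)) :
    K4DH.ZR t (1 + 1) 1 := by
  intro a b
  have h1 : ∀ f : A → B, ∑ s : tor A 1, f s = f 0 := by
    intro f
    have h : ∀ s : tor A 1, (s : A) = 0 := fun s => by
      have := mem_tor.mp s.2
      rwa [one_smul] at this
    have hu : (univ : Finset (tor A 1)) = {0} := by
      ext s
      simp only [Finset.mem_univ, Finset.mem_singleton, true_iff]
      exact Subtype.ext (h s)
    rw [hu, Finset.sum_singleton]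
    rfl
  have e1 : ∑ i : tor A (1 + 1), ∑ s : tor A 1, t (a + b + i + s) (1 • a - i) =
      -∑ i ∈ TF A 2, t (b + (a + a)) (-a + i) := by
    rw [sum_TF 1 (fun i => t (b + (a + a)) (-a + i)), ← Finset.sum_neg_distrib]
    refine Finset.sum_congr rfl fun i _ => ?_
    rw [h1 (fun s => t (a + b + i + s) (1 • a - i)), add_zero, one_smul]
    exact t_cbn ht (by module) (by module)
  have e2 : ∑ s : tor A 1, t ((1 + 1) • a + b + s) (1 • b) = -t b (b + (a + a)) := by
    rw [h1 (fun s => t ((1 + 1) • a + b + s) (1 • b)), add_zero, one_smul]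
    exact t_ba ht rfl (by module)
  have e3 : t ((1 + 1) • 1 • a) (1 • b) = -t b (a + a) := by
    rw [one_smul, one_smul]
    exact t_ba ht rfl (by module)
  have e4 : ∑ i : tor A (1 + 1), t (1 • a + i) (1 • b) = -∑ i ∈ TF A 2, t b (a + i) := by
    rw [sum_TF 1 (fun i => t b (a + i)), ← Finset.sum_neg_distrib]
    refine Finset.sum_congr rfl fun i _ => ?_
    rw [one_smul, one_smul]
    exact t_ba ht rfl rfl
  rw [e1, e2, e3, e4, hz b a]
  abel

end abs

section H

open K4M

variable {F : Type*} [Field F] [CharZero F] [IsAlgClosed F] [DecidableEq F]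
  {W : WeierstrassCurve.Affine F}

variable (hW : W.Δ ≠ 0) {t : TP W → TP W → K4M.B2 F} (ht : K4ParP.IsT t)
  (hC : ∀ P a b c d : TP W, K4D2.fT (K4D2.h2_closed hW) P a b c d = K4ParP.CR t P a b c d)

include hW ht hC

theorem td_H (n : ℕ) (a b : TP W) :
    ∑ i : tor (TP W) (n + 1), ∑ j : tor (TP W) (n + 1), t (a + i) (b + j) =
      t ((n + 1) • a) ((n + 1) • b) := by
  rw [← dt_mulN hW ht hC (Nat.succ_ne_zero n) (K := TF (TP W) (n + 1))
    (fun x => mem_TF (T := TP W) (Nat.succ_pos n) x) a b,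
    sum_TF n (fun i => ∑ j ∈ TF (TP W) (n + 1), t (a + i) (b + j))]
  refine Finset.sum_congr rfl fun i _ => ?_
  rw [sum_TF n (fun j => t (a + i) (b + j))]

theorem glob_H : ∃ s : K4M.FT F, K4DH.Glob (A := TP W) t (hkL F) (fun a => gT a - s)
    (fun n => lg (((n + 1 : ℕ) : F))) := by
  have hT : TD (TP W) := td_closed hW
  obtain ⟨s, hs⟩ := dgT (W := W) hT
  have hg : K4ParP.IsG (fun a : TP W => gT a - s) := fun a => by
    show gT (-a) - s = gT a - s
    rw [gT_neg]
  have hr : ∀ P : TP W, K4ParP.Rel (hkL F) t (fun a : TP W => gT a - s) P := fun P =>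
    rel_shift (rel_of_CR (h2_closed hW) hC P) s
  have hdg : ∀ (n : ℕ), Pool.Agent.K4D2.DG (fun a : TP W => gT a - s) (n + 1)
      (tor (TP W) (n + 1)) (lg (((n + 1 : ℕ) : F))) := by
    intro n a
    show ∑ i : tor (TP W) (n + 1), (gT (a + (i : TP W)) - s) = gT ((n + 1) • a) - s + _
    have hq : ((n + 1) ^ 2 : ℕ) • s = (((n + 1) ^ 2 : ℕ) : ℚ) • s :=
      (Nat.cast_smul_eq_nsmul ℚ _ _).symm
    rw [Finset.sum_sub_distrib, hs n a, Finset.sum_const, Finset.card_univ, hT.card n, hq]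
    rw [show ((((n + 1) ^ 2 : ℕ)) : ℚ) = (((n + 1 : ℕ) : ℚ)) ^ 2 by push_cast; ring]
    by_cases h : (n + 1) • a = 0
    · rw [if_pos h, if_pos h]
      exact aux_mod (V := K4M.FT F) _ _ _ _
    · rw [if_neg h, if_neg h]
      exact aux_mod (V := K4M.FT F) _ _ _ _
  refine ⟨s, ⟨ht, hg, ?_, ?_, hdg, ?_, ?_⟩⟩
  · exact par_T TP_LF ht hg hr
  · exact r4_T TP_LF ht hg hr
  · intro n a b
    have key := d1_T (m := hkL F) TP_LF ht hg hr (k := n + 1) (c := 0)
      (e := lg (((n + 1 : ℕ) : F))) (fun a => by rw [add_zero]; exact hdg n a)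
      (td_H hW ht hC n) (Nat.succ_pos n) a b
    rw [hT.card n] at key
    push_cast at key ⊢
    exact key
  · exact td_H hW ht hC

theorem z2_H (u v : TP W) : ∑ i ∈ TF (TP W) 2, t u (v + i) =
      t u (v + v) + t u (u + (v + v)) + ∑ i ∈ TF (TP W) 2, t (u + (v + v)) (-v + i) := by
  classical
  have hK : ∀ x : TP W, x ∈ TF (TP W) 2 ↔ x + x = 0 := fun x => by
    rw [mem_TF (T := TP W) two_pos, two_nsmul]
  have hT : TD (TP W) := td_closed hW
  have hc : (TF (TP W) 2).card = 4 := card_TF hT 1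
  refine zK_zero ht hK hc (conc_closed (K4M.pencil W) (h2_closed hW) ht hC) ?_ ?_ u v
  · intro a b
    have h := dt_mulN hW ht hC two_ne_zero (K := TF (TP W) 2)
      (fun x => mem_TF (T := TP W) two_pos x) a b
    rw [h, two_nsmul, two_nsmul]
  · exact TP_tor

theorem d2two_H (p q : TP W) :
    ∑ k ∈ TF (TP W) 2, K4ParP.xi (hkL F) t gT p (q + k) =
      (2 : ℚ)⁻¹ • K4ParP.xi (hkL F) t gT p (2 • q) := by
  obtain ⟨s, hs⟩ := glob_H hW ht hC
  have h := K4DH.D2_two (td_closed hW) hs (zr_two ht (z2_H hW ht hC)) p q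
  rw [K4M.xi_shift] at h
  rw [sum_TF 1 (fun k => K4ParP.xi (hkL F) t gT p (q + k))]
  exact_mod_cast h

end H

end Pool.Agent.K4Hon
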