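import Pool.Agent.Lib_helper86.K4H.L589
import Pool.Agent.Lib_helper76.K4M.IsogMul

set_option autoImplicit false
set_option linter.unusedSectionVars false

/-!
HeckeK4: the distribution relation for `[k]` in both variables.
-/

namespace Pool.Agent.MK4

open scoped TensorProduct

section H

variable {F : Type*} [Field F] [CharZero F] [IsAlgClosed F] [DecidableEq F]
  {W : WeierstrassCurve.Affine F}

/-- (L6), library form -/
theorem dist1_H (hW : W.Δ ≠ 0) {t : To W → To W → K4M.B2 F} (ht : K4ParP.IsT t)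
    (hC : ∀ P a b c d : To W, K4D2.fT (K4D2.h2_closed hW) P a b c d = K4ParP.CR t P a b c d) :
    Dist1 (fun a b : To W => K4ParP.xi (K4M.hkL F) t K4M.gT a b) := by
  intro k hk a b
  have hk0 : k ≠ 0 := hk.ne'
  have h := K4M.D1_mulN hW ht hC hk0 (K := K4D2.TF (K4M.TP W) k)
    (fun x => K4D2.mem_TF (T := K4M.TP W) hk x) a b
  have e1 : ∑ᶠ (i : {i : To W // k • i = 0}) (j : {j : To W // k • j = 0}),
      K4ParP.xi (K4M.hkL F) t K4M.gT (a + i) (b + j) =
      ∑ i ∈ K4D2.TF (K4M.TP W) k, ∑ j ∈ K4D2.TF (K4M.TP W) k,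
        K4ParP.xi (K4M.hkL F) t K4M.gT (a + i) (b + j) := by
    rw [← K4D2.finsum_tor hk (fun i => ∑ j ∈ K4D2.TF (K4M.TP W) k,
        K4ParP.xi (K4M.hkL F) t K4M.gT (a + i) (b + j))]
    refine finsum_congr fun i => ?_
    exact K4D2.finsum_tor hk (fun j => K4ParP.xi (K4M.hkL F) t K4M.gT (a + i) (b + j))
  rw [e1, h, ← Nat.cast_smul_eq_nsmul ℚ, smul_smul]
  have : ((k ^ 2 : ℕ) : ℚ) * ((k : ℚ) ^ 2)⁻¹ = 1 := by
    have : (k : ℚ) ≠ 0 := Nat.cast_ne_zero.mpr hk0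
    push_cast
    field_simp
  rw [this, one_smul]

/-- (L6) -/
theorem dist1_T (hW : W.Δ ≠ 0) {t : To W → To W → B2 F} (ht : Tri cr t) :
    Dist1 (fun a b : To W => hk (t a b) (K4M.gT b - K4M.gT a)) :=
  dist1_H hW ((tri_iff_T hW).mp ht).1 ((tri_iff_T hW).mp ht).2

end H

end Pool.Agent.MK4
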