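import Pool.Agent.Lib_helper86.K4H.H2
import Pool.Agent.Lib_helper2.K4.DefsH

set_option autoImplicit false
set_option linter.unusedSectionVars false
set_option linter.unnecessarySeqFocus false

/-!
HeckeK4: the honest distribution relation for the `2^m`-torsion and the honest Hecke relation `T₂`,
`finsum` forms.
-/

namespace Pool.Agent.MK4

section two

open Finset

variable {A B : Type*} [AddCommGroup A] [AddCommGroup B] [DecidableEq A]

/-- the subgroup `{0, e}` -/
lemma zm_set {e : A} (he : e + e = 0) :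
    ((AddSubgroup.zmultiples e : AddSubgroup A) : Set A) = {0, e} := by
  ext x
  rw [SetLike.mem_coe, AddSubgroup.mem_zmultiples_iff, Set.mem_insert_iff, Set.mem_singleton_iff]
  constructor
  · rintro ⟨k, rfl⟩
    rcases Int.even_or_odd' k with ⟨m, rfl | rfl⟩
    · left
      rw [mul_comm, mul_smul, two_smul, he, smul_zero]
    · right
      rw [add_smul, mul_comm, mul_smul, two_smul, he, smul_zero, zero_add, one_smul]
  · rintro (rfl | rfl)
    · exact ⟨0, zero_smul _ _⟩
    · exact ⟨1, one_smul _ _⟩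

lemma finsum_zm {e : A} (he : e + e = 0) (e0 : e ≠ 0) (f : A → B) :
    ∑ᶠ c : (AddSubgroup.zmultiples e : AddSubgroup A), f c = f 0 + f e := by
  have h1 : ∑ᶠ c : (AddSubgroup.zmultiples e : AddSubgroup A), f c =
      ∑ᶠ c ∈ ((AddSubgroup.zmultiples e : AddSubgroup A) : Set A), f c :=
    finsum_set_coe_eq_finsum_mem _
  rw [h1, zm_set he, finsum_mem_pair (Ne.symm e0)]

lemma zm_card {e : A} (he : e + e = 0) (e0 : e ≠ 0) :
    Nat.card (AddSubgroup.zmultiples e : AddSubgroup A) = 2 := by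
  have : Nat.card ((AddSubgroup.zmultiples e : AddSubgroup A) : Set A) = 2 := by
    rw [zm_set he, Nat.card_coe_set_eq, Set.ncard_pair (Ne.symm e0)]
  exact this

/-- sums over the subgroups of order two -/
lemma finsum_two {K : Finset A} (hK : ∀ x, x ∈ K ↔ x + x = 0) (F : A → A → B) :
    ∑ᶠ (C : {C : AddSubgroup A // Nat.card C = 2}) (c : C.1) (c' : C.1), F c c' =
      ∑ e ∈ K.erase 0, (F 0 0 + F 0 e + (F e 0 + F e e)) := by
  classical
  let φ : {e : A // e ∈ ((K.erase 0 : Finset A) : Set A)} → {C : AddSubgroup A // Nat.card C = 2} :=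
    fun e => ⟨AddSubgroup.zmultiples (e : A),
      zm_card ((hK _).mp (Finset.mem_of_mem_erase e.2)) (Finset.ne_of_mem_erase e.2)⟩
  have hφ : Function.Bijective φ := by
    constructor
    · rintro ⟨e, he⟩ ⟨e', he'⟩ h
      have h1 : AddSubgroup.zmultiples e = AddSubgroup.zmultiples e' := congrArg Subtype.val h
      have h2 : e ∈ ((AddSubgroup.zmultiples e' : AddSubgroup A) : Set A) := by
        rw [← h1]; exact AddSubgroup.mem_zmultiples e
      rw [zm_set ((hK _).mp (Finset.mem_of_mem_erase he')), Set.mem_insert_iff,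
        Set.mem_singleton_iff] at h2
      rcases h2 with h2 | h2
      · exact absurd h2 (Finset.ne_of_mem_erase he)
      · exact Subtype.ext h2
    · rintro ⟨C, hC⟩
      have : Finite C := Nat.finite_of_card_ne_zero (by rw [hC]; norm_num)
      have hnt : Nontrivial C := by
        rw [← Finite.one_lt_card_iff_nontrivial, hC]; norm_num
      obtain ⟨⟨e, heC⟩, he0⟩ := exists_ne (0 : C)
      have e0 : e ≠ 0 := fun h => he0 (Subtype.ext h)
      have he : e + e = 0 := by
        have h1 : Nat.card C • (⟨e, heC⟩ : C) = 0 := card_nsmul_eq_zero'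
        rw [hC] at h1
        have := congrArg (fun z : C => (z : A)) h1
        simpa [two_smul] using this
      refine ⟨⟨e, by
        rw [Finset.mem_coe, Finset.mem_erase]
        exact ⟨e0, (hK e).mpr he⟩⟩, ?_⟩
      apply Subtype.ext
      show AddSubgroup.zmultiples e = C
      have hle : AddSubgroup.zmultiples e ≤ C := by
        rw [AddSubgroup.zmultiples_le]; exact heC
      apply SetLike.coe_injective
      refine Set.eq_of_subset_of_ncard_le hle ?_ (Set.toFinite _)
      rw [← Nat.card_coe_set_eq, ← Nat.card_coe_set_eq]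
      have h2 : Nat.card ((AddSubgroup.zmultiples e : AddSubgroup A) : Set A) = 2 := zm_card he e0
      have h3 : Nat.card ((C : AddSubgroup A) : Set A) = 2 := hC
      rw [h2, h3]
  have h1 : ∑ᶠ (C : {C : AddSubgroup A // Nat.card C = 2}) (c : C.1) (c' : C.1), F c c' =
      ∑ᶠ e : {e : A // e ∈ ((K.erase 0 : Finset A) : Set A)},
        (F 0 0 + F 0 e + (F e 0 + F e e)) := by
    symm
    refine finsum_eq_of_bijective φ hφ ?_
    rintro ⟨e, heK⟩
    have he : e + e = 0 := (hK _).mp (Finset.mem_of_mem_erase heK)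
    have e0 : e ≠ 0 := Finset.ne_of_mem_erase heK
    have h2 : ∀ c : A, ∑ᶠ c' : (AddSubgroup.zmultiples e : AddSubgroup A), F c c' = F c 0 + F c e :=
      fun c => finsum_zm he e0 (F c)
    show _ = ∑ᶠ (c : (AddSubgroup.zmultiples e : AddSubgroup A))
      (c' : (AddSubgroup.zmultiples e : AddSubgroup A)), F c c'
    rw [finsum_congr (fun c : (AddSubgroup.zmultiples e : AddSubgroup A) => h2 c)]
    exact (finsum_zm he e0 (fun c => F c 0 + F c e)).symm
  rw [h1]
  have h2 : ∑ᶠ e : {e : A // e ∈ ((K.erase 0 : Finset A) : Set A)},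
      (F 0 0 + F 0 e + (F e 0 + F e e)) =
      ∑ᶠ e ∈ ((K.erase 0 : Finset A) : Set A), (F 0 0 + F 0 e + (F e 0 + F e e)) :=
    finsum_set_coe_eq_finsum_mem (f := fun e => (F 0 0 + F 0 e + (F e 0 + F e e)))
      ((K.erase 0 : Finset A) : Set A)
  rw [h2, finsum_mem_coe_finset]

lemma merel_two (f : ℕ × ℕ × ℕ × ℕ → B) :
    ∑ᶠ M ∈ Merel 2, f M = f (2, 0, 0, 1) + f (1, 0, 0, 2) + f (2, 0, 1, 1) + f (1, 1, 0, 2) := by
  rw [K4D2.finsum_merel]
  have h : K4TL.XX 2 = {(2, 0, 0, 1), (1, 0, 0, 2), (2, 0, 1, 1), (1, 1, 0, 2)} := by decide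
  rw [h, Finset.sum_insert (by decide), Finset.sum_insert (by decide),
    Finset.sum_insert (by decide), Finset.sum_singleton]
  abel

/-- `T₂` from the Manin relations and the distribution relation for the 2-torsion. -/
theorem hecke_two {ξ : A → A → B} (hm : Manin ξ) {K : Finset A} (hK : ∀ x, x ∈ K ↔ x + x = 0)
    (hc : K.card = 4) (hd : ∀ a b, 2 • ∑ i ∈ K, ξ a (b + i) = ξ a (2 • b)) : HeckeAt 2 ξ := by
  intro a b
  rw [finsum_two hK (fun c c' => ξ (a + c) (b + c')), merel_two]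
  simp only [zero_smul, one_smul, add_zero, zero_add]
  have h0 : (0 : A) ∈ K := (hK 0).mpr (add_zero 0)
  have hsum : ∀ f : A → B, ∑ e ∈ K, f e = f 0 + ∑ e ∈ K.erase 0, f e := fun f =>
    (Finset.add_sum_erase K f h0).symm
  have hc' : (K.erase 0).card = 3 := by rw [Finset.card_erase_of_mem h0, hc]
  -- the three sums
  have s2 : 2 • ∑ e ∈ K, ξ a (b + e) = ξ a (2 • b) := hd a b
  have s1 : 2 • ∑ e ∈ K, ξ (a + e) b = ξ (2 • a) b := by
    rw [← hm.sym (2 • a) b, ← hd b a]
    congr 1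
    exact Finset.sum_congr rfl fun e _ => (hm.sym (a + e) b).symm
  have neg1 : ∀ x y, ξ (-x) y = - ξ x y := fun x y => by
    rw [hm.sym y (-x), hm.par, hm.sym x y]
  have s3 : 2 • ∑ e ∈ K, ξ (a + e) (b + e) = ξ (a + b) (2 • b) + ξ (2 • a) (a + b) := by
    have h : ∀ e ∈ K, ξ (a + e) (b + e) = ξ (a + b) (b + e) + ξ (a + b) (a + e) := by
      intro e he
      have he2 : e + e = 0 := (hK e).mp he
      have h1 := hm.tri (a + e) (b + e) (-(a + b)) (by
        rw [show a + e + (b + e) + -(a + b) = e + e by abel, he2])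
      rw [hm.par (b + e) (a + b), neg1 (a + b) (a + e), hm.sym (a + b) (b + e)] at h1
      rw [← sub_eq_zero, ← h1]
      abel
    rw [Finset.sum_congr rfl h, Finset.sum_add_distrib, smul_add, hd, hd, hm.sym (2 • a) (a + b)]
  rw [hsum, add_zero] at s1 s2 s3
  simp only [add_zero] at s3
  rw [Finset.sum_add_distrib, Finset.sum_add_distrib, Finset.sum_add_distrib, Finset.sum_const, hc']
  have e1 : ξ (2 • a) b + ξ a (2 • b) + ξ (2 • a) (a + b) + ξ (a + b) (2 • b) =
      ξ (2 • a) b + ξ a (2 • b) + (ξ (a + b) (2 • b) + ξ (2 • a) (a + b)) := by abel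
  rw [e1, ← s1, ← s2, ← s3]
  abel

/-- the relation at `k` and at `2` gives the relation at `2k` -/
lemma dist2_mul {ξ : A → A → B} {K N M : Finset A} {n : ℕ} (hK : ∀ x, x ∈ K ↔ 2 • x = 0)
    (hN : ∀ x, x ∈ N ↔ n • x = 0) (hM : ∀ x, x ∈ M ↔ (n * 2) • x = 0)
    (hdiv : ∀ x : A, ∃ y, 2 • y = x)
    (hd : ∀ a b, 2 • ∑ i ∈ K, ξ a (b + i) = ξ a (2 • b))
    (hn : ∀ a b, n • ∑ i ∈ N, ξ a (b + i) = ξ a (n • b)) (a b : A) :
    (n * 2) • ∑ i ∈ M, ξ a (b + i) = ξ a ((n * 2) • b) := by
  have hmap : ∀ x ∈ M, 2 • x ∈ N := fun x hx => by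
    rw [hN, ← mul_smul]; exact (hM x).mp hx
  have h1 : ∑ i ∈ M, ξ a (b + i) = ∑ y ∈ N, ∑ x ∈ M with 2 • x = y, ξ a (b + x) :=
    (Finset.sum_fiberwise_of_maps_to hmap _).symm
  have h2 : ∀ y ∈ N, 2 • ∑ x ∈ M with 2 • x = y, ξ a (b + x) = ξ a (2 • b + y) := by
    intro y hy
    obtain ⟨x₀, hx₀⟩ := hdiv y
    have h3 : ∑ x ∈ M with 2 • x = y, ξ a (b + x) = ∑ k ∈ K, ξ a (b + x₀ + k) := by
      refine Finset.sum_bij' (fun x _ => x - x₀) (fun k _ => x₀ + k) ?_ ?_ ?_ ?_ ?_
      · intro x hx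
        rw [Finset.mem_filter] at hx
        rw [hK, smul_sub, hx.2, hx₀, sub_self]
      · intro k hk
        rw [Finset.mem_filter]
        have hk' := (hK k).mp hk
        have : 2 • (x₀ + k) = y := by rw [smul_add, hk', add_zero, hx₀]
        refine ⟨?_, this⟩
        rw [hM, mul_smul, this]
        exact (hN y).mp hy
      · intro x _; abel
      · intro k _; abel
      · intro x _; congr 1; abel
    rw [h3, hd, smul_add, hx₀]
  rw [mul_smul, h1, Finset.smul_sum, Finset.sum_congr rfl h2, hn, ← mul_smul]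

end two

end Pool.Agent.MK4
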